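import Mathlib
import Pool.Agent.Q2.TN.Stm

/-! Project PM (helper2): full answer (yes) to MP_791b9a_al.  Every `def S_xx : Prop` is a lemma job; the
docstring contains its complete proof.  All groups are finite.  `IsPNil 2`, `IsSyl 2`, `IsChief`, `Nm` are from
`Pool.Agent.Q2.TN.Stm`; the module `Pool.Agent.Q2.TN.Main` contains proofs of all lemmas there
(`Q2.TN.Fin.a1 : S_A1`, `Q2.TN.Fin.b3 : S_B3` = Frobenius' theorem, and so on) and may be imported. -/

namespace Q2.PM

open Subgroup Q2.TN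

/-- `H X = X H` (one inclusion; the other one follows by taking inverses) -/
def Pm {G : Type} [Group G] (H X : Subgroup G) : Prop :=
  ∀ h ∈ H, ∀ x ∈ X, ∃ x' ∈ X, ∃ h' ∈ H, h * x = x' * h'

/-- `H` is propermutable in `G`: `G = N_G(H) B` and `H` permutes with all subgroups of `B` -/
def Pro {G : Type} [Group G] (H : Subgroup G) : Prop :=
  ∃ B : Subgroup G, (∀ g : G, ∃ n ∈ Nm H, ∃ b ∈ B, g = n * b) ∧ ∀ X : Subgroup G, X ≤ B → Pm H X

/-- all subgroups of order `2 ^ k` of `P` are propermutable -/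
def Hyp (k : ℕ) {G : Type} [Group G] (P : Subgroup G) : Prop :=
  ∀ H : Subgroup G, H ≤ P → Nat.card H = 2 ^ k → Pro H

/-- a nontrivial normal subgroup that is a 2-group or has odd order -/
def Gd {G : Type} [Group G] (N : Subgroup G) : Prop :=
  N.Normal ∧ N ≠ ⊥ ∧ (IsPGroup 2 N ∨ Odd (Nat.card N))

/-- `H` permutes with all `q`-subgroups (`q` an odd prime) of its normal closure -/
def Sp {G : Type} [Group G] (H : Subgroup G) : Prop :=
  ∀ q : ℕ, q.Prime → q ≠ 2 → ∀ Y : Subgroup G, IsPGroup q Y → Y ≤ normalClosure (H : Set G) → Pm H Y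

/-- `T` is a minimal normal subgroup and a 2-group -/
def IsMin {G : Type} [Group G] (T : Subgroup G) : Prop :=
  T.Normal ∧ T ≠ ⊥ ∧ IsPGroup 2 T ∧ ∀ L : Subgroup G, L.Normal → L ≤ T → L = ⊥ ∨ L = T

/-- the facts known about a minimal counterexample -/
structure Env (k : ℕ) {G : Type} [Group G] (P : Subgroup G) : Prop where
  two_le : 2 ≤ k
  syl : IsSyl 2 P
  card_lt : 2 ^ k < Nat.card P
  nil : ¬ IsPNil 2 G
  /-- no nontrivial normal subgroup of odd order -/
  odd : ∀ N : Subgroup G, N.Normal → Odd (Nat.card N) → N = ⊥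
  /-- `P` and `N_G(H ∩ D)` generate `G` -/
  gen : ∀ H D S : Subgroup G, H ≤ P → Nat.card H = 2 ^ k → D.Normal → IsPGroup 2 D → P ≤ S →
    Nm (H ⊓ D) ≤ S → S = ⊤
  /-- if `H` is not contained in `N` then `G / N` has a nontrivial normal subgroup that is a 2-group or odd -/
  ext : ∀ H N : Subgroup G, H ≤ P → Nat.card H = 2 ^ k → N.Normal → ¬ H ≤ N →
    ∃ F : Subgroup G, F.Normal ∧ N < F ∧ ((∃ j : ℕ, N.relIndex F = 2 ^ j) ∨ Odd (N.relIndex F))
  /-- `G / T` is 2-nilpotent for small `T` -/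
  quo : ∀ (T : Subgroup G) [T.Normal], T ≠ ⊥ → ∀ m : ℕ, Nat.card T = 2 ^ m → m + 2 ≤ k → IsPNil 2 (G ⧸ T)

/-! ### A. Permutability -/

/-- **A1** (Kegel-Wielandt). `G` simple (every normal subgroup is `⊥` or `⊤`), `A`, `B` nontrivial, `A` permutes
with all conjugates of `B`: `G = A B`.  Proof: suppose not.  Note that if `G = A (g B g⁻¹)` then `G = A B`.  Among
the subgroups `C ≥ A` that permute with all conjugates of `B` and satisfy `C B ≠ G` take one of greatest order.
For `g ∈ G` and `b ∈ g B g⁻¹` the subgroup `b C b⁻¹` permutes with all conjugates of `B`, so does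
`C₁ = C ⊔ b C b⁻¹` (if two subgroups permute with `Y`, so does their join: induct on words, or use
`closure_induction`), and `C₁ (g B g⁻¹) ≤ C (g B g⁻¹)`, a subgroup `≠ G`.  So `C₁ = C` by the choice: every
conjugate of `B` normalizes `C`; the subgroup generated by the conjugates is normal and `≠ ⊥`, so it is `⊤`; so
`C` is normal, so `C = ⊤`, and `C B = G`, contradiction. -/
def S_A1 : Prop := ∀ (G : Type) [Group G] [Finite G] (A B : Subgroup G),
  (∀ N : Subgroup G, N.Normal → N = ⊥ ∨ N = ⊤) → A ≠ ⊥ → B ≠ ⊥ →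
  (∀ g : G, Pm A (B.map (MulAut.conj g).toMonoidHom)) → ∀ g : G, ∃ a ∈ A, ∃ b ∈ B, g = a * b

/-- **A2**. A group of order `2 ^ a * q`, `q` an odd prime, has a nontrivial normal subgroup that is a 2-group or
of odd order.  Proof: `a = 0`: `⊤`.  Let `a ≥ 1`.  The number of Sylow 2-subgroups is 1 (then it is normal) or
`q`.  Let it be `q` and let `D = S₁ ∩ S₂` be of greatest order among intersections of two different Sylow
2-subgroups.  If `D = 1`: the number of elements of 2-power order is `q (2 ^ a - 1) + 1 = |G| - (q - 1)`, so the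
`q - 1` elements of order `q` of one Sylow `q`-subgroup are all the others and this subgroup is the only one, so
normal.  If `D ≠ 1`: let `N = N_G(D)`; `S_i ∩ N > D`.  If `N` had only one Sylow 2-subgroup `V`, then `V` lies in a
Sylow subgroup `S₃` of `G`, `S₃ ∩ S₁ ≥ S₁ ∩ N > D` gives `S₃ = S₁`, and `S₃ = S₂`: contradiction.  So `N` has `q`
Sylow 2-subgroups (a divisor of `q`), all contain `D`, and different ones lie in different Sylow subgroups of `G`;
so all `q` Sylow 2-subgroups of `G` contain `D`, and their intersection is a nontrivial normal 2-subgroup. -/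
def S_A2 : Prop := ∀ (G : Type) [Group G] [Finite G] (a q : ℕ), q.Prime → q ≠ 2 → Nat.card G = 2 ^ a * q →
  ∃ N : Subgroup G, Gd N

/-- **A3**. (Assume A1, A2.)  `H ≠ 1` a 2-subgroup that permutes with all `q`-subgroups of its normal closure, `q`
odd primes: `G` has a `Gd` subgroup.  Proof by induction on `card G`.  Observation (O): if `N` is normal in `G` and
`N` has a `Gd` subgroup `N₀`, then so has `G`: the normal closure of `N₀` in `G` is generated by the conjugates,
normal 2-subgroups (odd order subgroups) of `N`; such products are again 2-groups (of odd order).  Let `R` be the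
normal closure of `H`.  If `R ≠ ⊤`: the hypothesis holds for `H.subgroupOf R` in `R`; induction and (O).  Let
`R = ⊤`.  Suppose `N` is normal, `N ≠ ⊥, ⊤`.  If `H ⊓ N ≠ ⊥`: for a `q`-subgroup `Y` of `N`, `H Y` is a subgroup and
`H Y ∩ N = (H ∩ N) Y` (Dedekind), so `H ∩ N` permutes with `Y`; induction for `N` and (O).  If `H ⊓ N = ⊥`:
`H Y ∩ N = Y`, so `H` normalizes `Y`; the same for all `q`-subgroups of `N` (so for the conjugates of `Y`), so every
conjugate of `H` normalizes `Y` and `Y` is normal in `G` as `R = ⊤`.  If `card N` has an odd prime divisor this gives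
a nontrivial normal `q`-subgroup (odd order); otherwise `N` is a 2-group.  Finally let `G` be simple.  If `G` is a
2-group take `⊤`.  Otherwise let `B` have order `q`, an odd prime.  By A1 `G = H B`, so `card G = 2 ^ a * q`; A2. -/
def S_A3 : Prop := ∀ (G : Type) [Group G] [Finite G] (H : Subgroup G), H ≠ ⊥ → IsPGroup 2 H → Sp H →
  ∃ N : Subgroup G, Gd N

/-- **A4**. A propermutable 2-subgroup `H` permutes with all `q`-subgroups of its normal closure `R`.  Proof: `B` as
in the definition.  `H` permutes with `B`, so `K = H B = B H` is a subgroup, and `R`, generated by the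
`(n b)⁻¹ H (n b) = b⁻¹ H b`, is contained in `K`.  `K.index`-count: `|K : B| = |H : H ∩ B|` is a power of 2, so a
Sylow `q`-subgroup of `B` is one of `K`, so for a `q`-subgroup `Y ≤ R ≤ K` there is `g ∈ K` with `g Y g⁻¹ ≤ B`
(Sylow); write `g = b h`; then `h Y h⁻¹ ≤ B` (`b ∈ B`), so `H` permutes with `h Y h⁻¹`; conjugate with `h⁻¹ ∈ H`. -/
def S_A4 : Prop := ∀ (G : Type) [Group G] [Finite G] (H : Subgroup G), IsPGroup 2 H → Pro H → Sp H

/-- **A5**. The image of a propermutable subgroup under a surjective map is propermutable (image of `B`; a subgroup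
`X` of the image of `B` is the image of `X.comap f ⊓ B`). -/
def S_A5 : Prop := ∀ (G K : Type) [Group G] [Group K] [Finite G] [Finite K] (f : G →* K) (H : Subgroup G),
  Function.Surjective f → Pro H → Pro (H.map f)

/-- **A6**. `H` a propermutable 2-subgroup, `D` a normal 2-subgroup, `P` Sylow, `P ≤ S`, `N_G(H ∩ D) ≤ S`: `S = ⊤`.
Proof: let `W = N_G(H ∩ D) ≥ N_G(H)`.  Let `Y ≤ B` be of odd order.  `H Y` is a subgroup with Sylow 2-subgroup `H`;
`H Y ∩ D` is a normal 2-subgroup of it, so it is `≤ H`, so it is `H ∩ D`, and `Y` normalizes it: `Y ≤ W`.  Let `q`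
be an odd prime.  `G = W B` so `|G : W| = |B : B ∩ W|`, and `B ∩ W` contains a Sylow `q`-subgroup of `B`; so
`q ∤ W.index`, so `q ∤ S.index`; and `2 ∤ S.index` as `P ≤ S`.  So `S.index = 1`. -/
def S_A6 : Prop := ∀ (G : Type) [Group G] [Finite G] (H D P S : Subgroup G), IsPGroup 2 H → Pro H →
  D.Normal → IsPGroup 2 D → IsSyl 2 P → P ≤ S → Nm (H ⊓ D) ≤ S → S = ⊤

/-- **A7**. (Assume A3, A4, A5.)  `H` a propermutable 2-subgroup, `N` normal, `¬ H ≤ N`: `G ⧸ N` has a `Gd` subgroup;
in terms of `G` (comap; orders of subgroups of `G ⧸ N` are `relIndex`). -/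
def S_A7 : Prop := ∀ (G : Type) [Group G] [Finite G] (H N : Subgroup G), IsPGroup 2 H → Pro H → N.Normal →
  ¬ H ≤ N →
    ∃ F : Subgroup G, F.Normal ∧ N < F ∧ ((∃ j : ℕ, N.relIndex F = 2 ^ j) ∨ Odd (N.relIndex F))

/-- **A8**. (Assume A5.)  The hypothesis passes to the quotient by a normal subgroup `N` of odd order.  Proof:
`mk'` is injective on `P`, a subgroup `H'` of order `2 ^ k` of the image of `P` is the image of
`H'.comap ⊓ P`, of order `2 ^ k`. -/
def S_A8 : Prop := ∀ (k : ℕ) (G : Type) [Group G] [Finite G] (P N : Subgroup G) [N.Normal], IsSyl 2 P →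
  Odd (Nat.card N) → Hyp k P →
    Hyp k (P.map (QuotientGroup.mk' N)) ∧ Nat.card (P.map (QuotientGroup.mk' N)) = Nat.card P

/-- **A9**. (Assume A5.)  The same for a normal 2-subgroup `T` of order `2 ^ m`, `m ≤ k`, with `k - m`.  Proof: a
subgroup of order `2 ^ (k - m)` of the image of `P` is the image of its comap, which has order `2 ^ k` and lies in
`P` as `T ≤ P`. -/
def S_A9 : Prop := ∀ (k m : ℕ) (G : Type) [Group G] [Finite G] (P T : Subgroup G) [T.Normal], IsSyl 2 P →
  Nat.card T = 2 ^ m → m ≤ k → Hyp k P →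
    Hyp (k - m) (P.map (QuotientGroup.mk' T)) ∧
      Nat.card (P.map (QuotientGroup.mk' T)) * 2 ^ m = Nat.card P

/-! ### B. General facts -/

/-- **B1**. Chief factors below a normal 2-subgroup.  `(M, V)` a chief factor of `G`, `V` and `U` normal
2-subgroups: squares of `V` and commutators `[V, U]` lie in `M`.  Proof: the fixed points of the 2-group `U` on the
nontrivial 2-group `V / M` are `≠ 1` and form a normal subgroup of `G / M` (as `U` is normal), so they are all of
`V / M`.  With `U = V` the group `V / M` is abelian; its squares form a normal subgroup, proper (an abelian 2-group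
`≠ 1` has an element of order 2, so squaring is not injective, not surjective), so trivial. -/
def S_B1 : Prop := ∀ (G : Type) [Group G] [Finite G] (M V U : Subgroup G), IsChief M V → IsPGroup 2 V →
  U.Normal → IsPGroup 2 U → (∀ x ∈ V, x * x ∈ M) ∧ ∀ x ∈ V, ∀ y ∈ U, x * y * x⁻¹ * y⁻¹ ∈ M

/-- **B2**. `M < V` normal in `G`, `V` a 2-group, `P` a 2-subgroup: some `x ∈ V \ M` with `x * x ∈ M` has its coset
`x M` fixed by `P`.  Proof: `P` acts on the nontrivial 2-group `V / M` by conjugation, the fixed points form a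
nontrivial subgroup (2-group acting on a 2-group), take an element of order 2 in it. -/
def S_B2 : Prop := ∀ (G : Type) [Group G] [Finite G] (M V P : Subgroup G), M.Normal → V.Normal → M < V →
  IsPGroup 2 V → IsPGroup 2 P →
    ∃ x ∈ V, x ∉ M ∧ x * x ∈ M ∧ ∀ y ∈ P, y * x * y⁻¹ * x⁻¹ ∈ M

/-- **B3**. A normal 2-subgroup `T` of order `≥ 2 ^ k` contains a subgroup of order `2 ^ k` normalized by the
2-subgroup `P`.  Proof by induction on `k`: `A ≤ T` of order `2 ^ k` normalized by `P`, `card T ≥ 2 ^ (k+1)`.  Let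
`Q = P ⊔ T`, a 2-group in which `T` is normal; do the induction with subgroups `A` normalized by `Q`: `T / A` is a
nontrivial normal subgroup of the 2-group `Q / A`, it contains a subgroup of order 2 of the centre of `Q / A`. -/
def S_B3 : Prop := ∀ (k : ℕ) (G : Type) [Group G] [Finite G] (T P : Subgroup G), T.Normal → IsPGroup 2 T →
  IsPGroup 2 P → 2 ^ k ≤ Nat.card T → ∃ H : Subgroup G, H ≤ T ∧ Nat.card H = 2 ^ k ∧ P ≤ Nm H

/-- **B4**. (Assume B3.)  `T ≠ ⊥` a normal 2-subgroup: it has a subgroup of index 2 normalized by `P`. -/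
def S_B4 : Prop := ∀ (G : Type) [Group G] [Finite G] (T P : Subgroup G), T.Normal → IsPGroup 2 T → T ≠ ⊥ →
  IsPGroup 2 P → ∃ T₁ : Subgroup G, T₁ ≤ T ∧ Nat.card T = 2 * Nat.card T₁ ∧ P ≤ Nm T₁

/-- **B5**. Subgroups of order `2 ^ k` between two 2-subgroups (`Sylow.exists_subgroup_card_pow_prime_le` in `C`). -/
def S_B5 : Prop := ∀ (k : ℕ) (G : Type) [Group G] [Finite G] (A C : Subgroup G), A ≤ C → IsPGroup 2 C →
  Nat.card A ≤ 2 ^ k → 2 ^ k ≤ Nat.card C → ∃ H : Subgroup G, A ≤ H ∧ H ≤ C ∧ Nat.card H = 2 ^ k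

/-- **B6**. `N ≤ P` of exponent 2 and order `2 ^ k`, `k ≥ 2`, in a greater 2-group: there is another subgroup of
order `2 ^ k`.  Proof: take `A` with `N ≤ A ≤ P`, `card A = 2 ^ (k+1)` (B5 or Mathlib) and `x ∈ A \ N`.  If
`zpowers x = A` then `A` is cyclic and so is `N`, of order `≥ 4` and exponent 2: contradiction.  So
`card (zpowers x) ≤ 2 ^ k`, extend it to a subgroup `H ≤ A` of order `2 ^ k`; `x ∈ H`, `x ∉ N`. -/
def S_B6 : Prop := ∀ (k : ℕ) (G : Type) [Group G] [Finite G] (N P : Subgroup G), 2 ≤ k → N ≤ P →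
  IsPGroup 2 P → Nat.card N = 2 ^ k → (∀ x ∈ N, x * x = 1) → 2 ^ k < Nat.card P →
    ∃ H : Subgroup G, H ≤ P ∧ Nat.card H = 2 ^ k ∧ ¬ H ≤ N

/-- **B7** (Schur-Zassenhaus with conjugacy, abelian kernel). `T ≤ F` normal in `G`, `T` an abelian 2-group,
`T.relIndex F` odd: `T` has a complement `F₀` in `F` and `G = T N_G(F₀)`.  Proof: existence:
`Subgroup.exists_right_complement'_of_coprime` in `F`.  Conjugacy of two complements `F₀`, `F₁` of `T` in `F`: for
`x ∈ F / T` (or `x ∈ F₀`) let `c x ∈ T` be such that `c x * x ∈ F₁`; `c (x y) = c x * (x * c y * x⁻¹)`; put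
`t = ∏ y, c y` over `y ∈ F₀`; then `t = (c x) ^ n * (x t x⁻¹)`, `n = card F₀` odd; as `T` is an abelian 2-group `n`
is invertible on `T`: `t = s ^ n`, so `c x = s * (x s⁻¹ x⁻¹)` and `F₁ = s F₀ s⁻¹`.  (Mathlib's
`Subgroup.QuotientDiff` is an alternative.)  For `g ∈ G` the conjugate of `F₀` by `g` is also a complement, so it is
`t F₀ t⁻¹`, and `t⁻¹ g ∈ N_G(F₀)`. -/
def S_B7 : Prop := ∀ (G : Type) [Group G] [Finite G] (T F : Subgroup G), T.Normal → F.Normal → T ≤ F →
  IsPGroup 2 T → (∀ x ∈ T, ∀ y ∈ T, x * y = y * x) → Odd (T.relIndex F) →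
    ∃ F₀ : Subgroup G, F₀ ≤ F ∧ F₀ ⊓ T = ⊥ ∧ T ⊔ F₀ = F ∧ ∀ g : G, ∃ t ∈ T, ∃ n ∈ Nm F₀, g = t * n

/-- **B8**. `L ≤ F` normal in `G`, `L` a 2-group centralized by `F`, `L.relIndex F` odd: `F = L O` with `O` normal in
`G` of odd order.  Proof: Schur-Zassenhaus gives a complement `O` of `L` in `F`; as `L` is central in `F`, `O` is
the set of all elements of odd order of `F` (for `x = l o` of odd order `l` has odd order, so `l = 1`), so it is
normal in `G`. -/
def S_B8 : Prop := ∀ (G : Type) [Group G] [Finite G] (L F : Subgroup G), L.Normal → F.Normal → L ≤ F →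
  IsPGroup 2 L → (∀ x ∈ L, ∀ y ∈ F, x * y = y * x) → Odd (L.relIndex F) →
    ∃ O : Subgroup G, O.Normal ∧ Odd (Nat.card O) ∧ L ⊔ O = F

/-- **B9** (squares). `N < V` normal in `G`, `N` central in `V` and of exponent 2, `T₁ ≤ T ≤ N` with products of two
elements of `T \ T₁` in `T₁`, and `x * x ∈ T \ T₁` for all `x ∈ V \ N`.  Then some `t ∈ T \ T₁` is central in `G`.
Proof: `V / N` has exponent 2, so it is abelian, commutators of `V` lie in `N`, which is central in `V`.  For
`x, y, x y ∉ N`: `(x y)² = x² y² [y⁻¹, x⁻¹]`-like, so `[x, y] = (xy)² (x² y²)⁻¹`-like lies in `T \ T₁` (a product of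
three elements of `T \ T₁`, use the class 2 identity `x * y * x * y = x * x * y * y * (y⁻¹ * x⁻¹ * y * x)`,
the last factor being central).  For `x, y, w` independent modulo `N` this gives `[x, y], [x, w],
[x, y w] = [x, y] [x, w]` all in `T \ T₁`: impossible.  So `V / N` has order 2 or 4.  Squares are constant on cosets
of `N` (`(x n)² = x² n² = x²`).  If `V = N ∪ x N`: `t = x²`; if `V = N ∪ x N ∪ y N ∪ x y N`: `t = x² y² (x y)²`, in
`T \ T₁`.  Conjugation by `g ∈ G` permutes the nontrivial cosets of `N` in `V` and so the squares; so it fixes `t`. -/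
def S_B9 : Prop := ∀ (G : Type) [Group G] [Finite G] (T₁ T N V : Subgroup G), N.Normal → V.Normal → N < V →
  T₁ ≤ T → T ≤ N → (∀ x ∈ N, ∀ y ∈ V, x * y = y * x) → (∀ x ∈ N, x * x = 1) →
  (∀ x ∈ T, x ∉ T₁ → ∀ y ∈ T, y ∉ T₁ → x * y ∈ T₁) →
  (∀ x ∈ V, x ∉ N → x * x ∈ T ∧ x * x ∉ T₁) →
    ∃ t ∈ T, t ∉ T₁ ∧ ∀ g : G, g * t = t * g

/-- **B10**. An element `y` of odd order (`y ^ m = 1`, `m` odd) normalizing a 2-subgroup `X` and commuting with all
`x ∈ X`, `x ^ 4 = 1`, commutes with `X`.  Proof: let `X₁ ≤ X` be of least order among the subgroups normalized by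
`y` and not centralized by `y`.  Let `X₀` be generated by the elements `[x, z] = x⁻¹ z⁻¹ x z`, `x ∈ X₁`,
`z ∈ zpowers y`; it is normalized by `y` and by `X₁`.  If `X₀ ≠ X₁` then `y` centralizes `X₀`, so `c = [x, y]`
commutes with `y` and `y^{-j} x y^j = x c^j`, `c ^ m = 1`, `c = 1`: contradiction.  So `X₀ = X₁`.  Let `Φ` be
generated by the squares and commutators of `X₁` (Frattini subgroup): normalized by `y` and `X₁`, `≠ X₁`, so
centralized by `y`, and by all conjugates `x y x⁻¹` (`Φ` is normal in `X₁`), so by `[x, z]`, so by `X₁`.  So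
`X₁` has class `≤ 2`, squares and commutators central; `[u, v]² = [u², v] = 1`, so
`(u v)⁴ = u⁴ v⁴ [v, u]^6 = u⁴ v⁴`.  For `c = [x, z]`: `z⁻¹ x z = x c` and `x ^ 4 ∈ Φ` commutes with `z`, so
`x⁴ = (x c)⁴ = x⁴ c⁴`: `c⁴ = 1`.  So all elements of `X₁` satisfy `x⁴ = 1`, and `y` centralizes them:
contradiction. -/
def S_B10 : Prop := ∀ (G : Type) [Group G] [Finite G] (X : Subgroup G) (y : G) (m : ℕ), IsPGroup 2 X →
  y ∈ Nm X → Odd m → y ^ m = 1 → (∀ x ∈ X, x ^ 4 = 1 → x * y = y * x) → ∀ x ∈ X, x * y = y * x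

/-- **B11** (a form of Frobenius' theorem). If every element of odd order normalizing a 2-subgroup centralizes it,
then `G` is 2-nilpotent.  Proof by induction on `card G`; `S_B3` and the other lemmas of `Pool.Agent.Q2.TN.Stm` are
proved in `Pool.Agent.Q2.TN.Main` (`Q2.TN.Fin.b3` and so on).  The hypothesis passes to subgroups.  If
`N_G(X) ≠ G` for all 2-subgroups `X ≠ 1`, these are 2-nilpotent by induction and `S_B3` applies.  Otherwise some
`X ≠ 1` is a normal 2-subgroup.  The hypothesis passes to `G ⧸ X`: for a 2-subgroup `Y / X` and an element of odd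
order normalizing it lift to an element `y` of odd order (replace a lift `g` by `g ^ (2 ^ s * u)` suitable), it
normalizes the 2-group `Y`.  So `G ⧸ X` is 2-nilpotent; let `F / X` be its normal 2-complement.  `X` is centralized
by all elements of odd order of `F`; a complement `O` of `X` in `F` (Schur-Zassenhaus) commutes with `X`, so
it is the set of all elements of odd order of `F`, so it is normal in `G`, and its index is a power of 2. -/
def S_B11 : Prop := ∀ (G : Type) [Group G] [Finite G],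
  (∀ (X : Subgroup G) (y : G) (m : ℕ), IsPGroup 2 X → y ∈ Nm X → Odd m → y ^ m = 1 →
    ∀ x ∈ X, x * y = y * x) → IsPNil 2 G

/-- **B12**. (Assume B1, B7, B8.)  `T` minimal normal, `F` normal with `F / T` of odd order `≠ 1`, no normal subgroup
of odd order: `T` has a complement `S` in the Sylow subgroup `P`, and `card T ≠ 2`.  Proof: `T` is abelian (B1 with
`M = ⊥`, `V = U = T`).  If `card T = 2` then `T` is central in `G`, B8 gives a normal subgroup `O` of odd order with
`T O = F`, `O ≠ ⊥`: contradiction.  Let `F₀` be as in B7, `N = N_G(F₀)`.  `T ∩ N` commutes with `F₀`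
(`[T ∩ N, F₀] ≤ T ∩ F₀ = 1`), it is normalized by `N` and centralized by `T`, so it is normal in `G = T N`; so it is
`⊥` or `T`.  If it is `T` then `T` centralizes `F₀`, so `F = T F₀` centralizes `T`; B8 gives the same
contradiction.  So `T ∩ N = ⊥` and `G = T N`.  Let `R` be a Sylow 2-subgroup of `N`; `T R` is a Sylow subgroup of
`G` (orders), so it is `g P g⁻¹`; `S = g⁻¹ R g`. -/
def S_B12 : Prop := ∀ (G : Type) [Group G] [Finite G] (P T F : Subgroup G), IsSyl 2 P → IsMin T → F.Normal →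
  T ≤ F → Odd (T.relIndex F) → F ≠ T → (∀ N : Subgroup G, N.Normal → Odd (Nat.card N) → N = ⊥) →
    Nat.card T ≠ 2 ∧ ∃ S : Subgroup G, S ≤ P ∧ S ⊓ T = ⊥ ∧ T ⊔ S = P

/-- **B13**. Minimal noncentralized normal 2-subgroup.  If some normal 2-subgroup is not centralized by some element
of odd order, there are `M < D`, `(M, D)` a chief factor, `D` a 2-group, not centralized by some element of odd
order, `M` centralized by all elements of odd order and by `D`, and `x ^ 4 = 1` on `D`.  Proof: `D` of least order,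
`M` a maximal one of the normal subgroups of `G` properly contained in `D`.  Let `D₀` be generated by the
`[d, e] = d⁻¹ e⁻¹ d e`, `e` of odd order: normal in `G`.  If `D₀ ≠ D` then `c = [d, e] ∈ D₀` commutes with `e`,
`e^{-j} d e^j = d c^j`, so `c = 1`: all commute, contradiction.  So `D₀ = D`.  `x ∈ M` commutes with `e` and with
`d⁻¹ e⁻¹ d` (odd order), so with `[d, e]`, so with `D₀ = D`.  Squares and commutators of `D` lie in `M` (S_B1), so they
are central in `D`, `(u v)⁴ = u⁴ v⁴ [v, u]^6 = u⁴ v⁴` since `[u, v]² = [u², v] = 1`; `e⁻¹ d e = d c`, `d⁴ ∈ M`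
commutes with `e`, so `c⁴ = 1`; so `x ^ 4 = 1` on `D`.  (Assume B1.) -/
def S_B13 : Prop := ∀ (G : Type) [Group G] [Finite G],
  (∃ D : Subgroup G, D.Normal ∧ IsPGroup 2 D ∧ ∃ (d e : G) (m : ℕ), d ∈ D ∧ Odd m ∧ e ^ m = 1 ∧ d * e ≠ e * d) →
  ∃ M D : Subgroup G, IsChief M D ∧ IsPGroup 2 D ∧
    (∃ (d e : G) (m : ℕ), d ∈ D ∧ Odd m ∧ e ^ m = 1 ∧ d * e ≠ e * d) ∧
    (∀ (e : G) (m : ℕ), Odd m → e ^ m = 1 → ∀ x ∈ M, x * e = e * x) ∧
    (∀ x ∈ M, ∀ d ∈ D, x * d = d * x) ∧ ∀ x ∈ D, x ^ 4 = 1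

/-! ### C. The minimal counterexample -/

/-- **C1**. `T` minimal normal, `T₁ ≤ T` of index 2 normalized by `P`, `H ∩ T = T₁`: `T` has order 2.  Proof: `Env.gen`
with `D = T`, `S = Nm T₁` shows that `T₁` is normal in `G`, so `T₁ = ⊥` (not `T`). -/
def S_C1 : Prop := ∀ (k : ℕ) (G : Type) [Group G] [Finite G] (P T T₁ H : Subgroup G), Env k P → IsMin T →
  T₁ ≤ T → Nat.card T = 2 * Nat.card T₁ → P ≤ Nm T₁ → H ≤ P → Nat.card H = 2 ^ k → H ⊓ T = T₁ →
    Nat.card T = 2

/-- **C2**. (Assume B3.)  `card T ≤ 2 ^ k`.  Proof: otherwise B3 gives `H ≤ T` of order `2 ^ k` normalized by `P`;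
`H ≤ P` since a normal 2-subgroup lies in `P`; by `Env.gen` (`D = T`, `H ⊓ T = H`) `H` is normal in `G`, `≠ ⊥, T`. -/
def S_C2 : Prop := ∀ (k : ℕ) (G : Type) [Group G] [Finite G] (P T : Subgroup G), Env k P → IsMin T →
  Nat.card T ≤ 2 ^ k

/-- **C3**. (Assume B4, B5, B12, C1, C2.)  No `F` above `T` with `F / T` of odd order `≠ 1`.  Proof: B12 gives `S`; let
`T₁` be as in B4; `T₁ S` is a subgroup (`S ≤ P` normalizes `T₁`) of index 2 in `P`, so of order `≥ 2 ^ k`, with
`T₁ S ∩ T = T₁`.  `card T₁ ≤ 2 ^ k` by C2; B5 gives `H`, `T₁ ≤ H ≤ T₁ S`, of order `2 ^ k`; `H ⊓ T = T₁`; C1 gives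
`card T = 2`, contradicting B12. -/
def S_C3 : Prop := ∀ (k : ℕ) (G : Type) [Group G] [Finite G] (P T F : Subgroup G), Env k P → IsMin T →
  F.Normal → T ≤ F → Odd (T.relIndex F) → F = T

/-- **C4**. (Assume C2, C3.)  `T` has order `2 ^ (k-1)` or `2 ^ k`.  Proof: otherwise `card T = 2 ^ m`, `m + 2 ≤ k`, so
`G ⧸ T` is 2-nilpotent (`Env.quo`); the comap `F` of its normal 2-complement satisfies the hypotheses of C3, so it is
`T`, so `G ⧸ T` and `G` are 2-groups, so `G` is 2-nilpotent: contradiction. -/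
def S_C4 : Prop := ∀ (k : ℕ) (G : Type) [Group G] [Finite G] (P T : Subgroup G), Env k P → IsMin T →
  Nat.card T = 2 ^ (k - 1) ∨ Nat.card T = 2 ^ k

/-- **C5**. `N` a normal 2-subgroup with no odd extension, not containing some `H ≤ P` of order `2 ^ k`: there is a
chief factor `(N, V)`, `V` a 2-group.  Proof: `Env.ext` gives `F`; the odd case is excluded; `F` is a 2-group; take
`V` minimal among the normal subgroups `V` with `N < V ≤ F`. -/
def S_C5 : Prop := ∀ (k : ℕ) (G : Type) [Group G] [Finite G] (P N H : Subgroup G), Env k P → N.Normal →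
  IsPGroup 2 N → H ≤ P → Nat.card H = 2 ^ k → ¬ H ≤ N →
  (∀ F : Subgroup G, F.Normal → N ≤ F → Odd (N.relIndex F) → F = N) →
    ∃ V : Subgroup G, IsChief N V ∧ IsPGroup 2 V

/-- **C6**. (Assume B1, B4, B6, B9, C1, C3, C5.)  `card T = 2 ^ k` is impossible.  Proof: `T` has exponent 2 and is
central in every normal 2-subgroup (B1, `M = ⊥`).  B6 gives `H ≰ T` of order `2 ^ k`, C5 with `N = T` (C3) gives a
chief factor `(T, V)`, `V` a 2-group, so `x² ∈ T` for `x ∈ V` (B1).  Let `T₁` be as in B4.  For `x ∈ V \ T` we have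
`x² ∉ T₁`: otherwise `T₁ ∪ x T₁` is a subgroup of order `2 ^ k` (`T₁` is central in `V`), contained in `P`, which
meets `T` in `T₁`, so `card T = 2` by C1, but `k ≥ 2`.  B9 with `N = T`: some `t ∈ T \ T₁` is central in `G`; the
subgroup `{1, t}` is normal, so it is `T`: `card T = 2`, contradiction. -/
def S_C6 : Prop := ∀ (k : ℕ) (G : Type) [Group G] [Finite G] (P T : Subgroup G), Env k P → IsMin T →
  Nat.card T ≠ 2 ^ k

/-- **C7**. (Assume B1, B2, C3, C5.)  `k ≥ 3`, `card T = 2 ^ (k-1)`: there are a normal `L ≥ T` of order `2 ^ k`, abelian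
of exponent 2, and `c ∈ L \ T`.  Proof: some `H ≤ P` has order `2 ^ k`, not in `T`.  C5 with `N = T` (C3) gives a
chief factor `(T, V)`, `V` a 2-group.  B2 gives `x ∈ V \ T`, `x² ∈ T`, coset fixed by `P`.  `L = T ∪ x T` is a
subgroup of order `2 ^ k` normalized by `P`, contained in `P`.  `Env.gen` with `D = V`: it is normal in `G`.  (So
`L = V`.)  `T` is central in `L` (B1 with `M = ⊥`, `U = L`), so `L` is abelian.  `(x t)² = x² t² = x²` for `t ∈ T`, so
`x²` is the square of every element of `L \ T`, so it is fixed by conjugation with all `g ∈ G`; if `x² ≠ 1` then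
`{1, x²}` (note `x⁴ = 1`) is a normal subgroup of order 2 in `T`, so it is `T`, but `card T ≥ 4`. -/
def S_C7 : Prop := ∀ (k : ℕ) (G : Type) [Group G] [Finite G] (P T : Subgroup G), Env k P → IsMin T → 3 ≤ k →
  Nat.card T = 2 ^ (k - 1) → ∃ L : Subgroup G, L.Normal ∧ T ≤ L ∧ Nat.card L = 2 ^ k ∧
    (∀ x ∈ L, ∀ y ∈ L, x * y = y * x) ∧ (∀ x ∈ L, x * x = 1) ∧ ∃ c ∈ L, c ∉ T

/-- **C8**. (Assume B8, C4.)  `k ≥ 3`, `L` as in C7: no odd extension of `L`.  Proof: let `F ≥ L` be normal with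
`F / L` of odd order, `F ≠ L`.  `C = C_F(L)` (`F ⊓ centralizer L`, normal in `G`, contains `L`) has by B8 the form
`L O` with `O` normal in `G` of odd order, so `O = ⊥` and `C = L`.  `T ∩ C_G(F)` is normal in `G`, so it is `⊥` or
`T`.  If it is `T`: let `f ∈ F` have odd order; `f` centralizes `T` and `[c, f] ∈ T` for `c ∈ L` (`L / T` has order 2),
so `f^{-j} c f^j = c [c, f]^j`, so `[c, f] = 1`: `f ∈ C = L`, `f = 1`; so `F / L`, of odd order, is trivial.  So
`T ∩ C_G(F) = ⊥`.  Let `c ∈ L \ T`; the product `c'` of all conjugates of `c` under `F / L` (an odd number of elements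
of the coset `c T`) lies in `c T`, commutes with `F`, so `c' ≠ 1` and
`L ∩ C_G(F)` is normal in `G`, nontrivial, meets `T` trivially, so it has order 2 (index of `T` in `L` is 2).  It is a
minimal normal 2-subgroup of order 2, but C4 says that the order is `≥ 2 ^ (k-1) ≥ 4`. -/
def S_C8 : Prop := ∀ (k : ℕ) (G : Type) [Group G] [Finite G] (P T L F : Subgroup G), Env k P → IsMin T →
  3 ≤ k → Nat.card T = 2 ^ (k - 1) → L.Normal → T ≤ L → Nat.card L = 2 ^ k →
  (∀ x ∈ L, ∀ y ∈ L, x * y = y * x) → (∀ x ∈ L, x * x = 1) → F.Normal → L ≤ F → Odd (L.relIndex F) → F = L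

/-- **C9**. (Assume C1.)  `k ≥ 3`, `L` as in C7, `T₁` of index 2 in `T` normalized by `P`, `x ∈ P \ L` commuting with `L`,
`x² ∈ L`: `x² ∈ T \ T₁`.  Proof: suppose not.  Let `c ∈ L \ T`; `L = T₁ ∪ z T₁ ∪ c T₁ ∪ c z T₁` with `z ∈ T \ T₁`.
`x²` lies in `T₁` or in `L \ T`.  If `x² ∈ T₁`: `H = T₁ ∪ c T₁ ∪ x T₁ ∪ c x T₁` (an abelian subgroup: closed since
`c² = 1`, `x² ∈ T₁`), order `4 card T₁ = 2 ^ k`, `H ∩ T = T₁` as `x, c x ∉ L`.  If `x² ∈ L \ T`:
`H = T₁ ∪ x T₁ ∪ x² T₁ ∪ x³ T₁` (`x⁴ = 1`), order `2 ^ k`, `H ∩ T = T₁`.  C1: `card T = 2`, contradiction. -/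
def S_C9 : Prop := ∀ (k : ℕ) (G : Type) [Group G] [Finite G] (P T L T₁ : Subgroup G) (x : G), Env k P →
  IsMin T → 3 ≤ k → Nat.card T = 2 ^ (k - 1) → L.Normal → T ≤ L → Nat.card L = 2 ^ k →
  (∀ x ∈ L, ∀ y ∈ L, x * y = y * x) → (∀ x ∈ L, x * x = 1) → T₁ ≤ T → Nat.card T = 2 * Nat.card T₁ →
  P ≤ Nm T₁ → x ∈ P → x ∉ L → x * x ∈ L → (∀ y ∈ L, x * y = y * x) → x * x ∈ T ∧ x * x ∉ T₁

/-- **C10**. (Assume B1, B4, B9, C9.)  `L` as in C7: a normal 2-subgroup `U ≥ L` commuting with `L` is `L`.  Proof: if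
not, take `V` minimal among the normal subgroups with `L < V ≤ U`: `(L, V)` is a chief factor, `x² ∈ L` for `x ∈ V`
(B1).  `T₁` from B4.  `V ≤ P`.  C9: `x² ∈ T \ T₁` for `x ∈ V \ L`.  B9 with `N = L`: a `t ∈ T \ T₁` central in `G`;
`{1, t}` is normal, so it is `T`, but `card T ≥ 4`. -/
def S_C10 : Prop := ∀ (k : ℕ) (G : Type) [Group G] [Finite G] (P T L U : Subgroup G), Env k P →
  IsMin T → 3 ≤ k → Nat.card T = 2 ^ (k - 1) → L.Normal → T ≤ L → Nat.card L = 2 ^ k →
  (∀ x ∈ L, ∀ y ∈ L, x * y = y * x) → (∀ x ∈ L, x * x = 1) → U.Normal → IsPGroup 2 U → L ≤ U →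
  (∀ x ∈ U, ∀ y ∈ L, x * y = y * x) → U = L

/-- **C11**. (Assume B1, B2, C10.)  `L` as in C7: a normal 2-subgroup `U ≥ L` is `L`.  Proof: `T` is central in
`U` (B1, `M = ⊥`).  `τ x = c⁻¹ x⁻¹ c x` for `x ∈ U`, `c ∈ L \ T` fixed: `τ x ∈ T` (`L / T` has order 2), `τ` is a
homomorphism `U → T` (`T` central in `U`), its kernel is `C_U(L) = U ⊓ centralizer L` (as `L = T ∪ c T`), which is
normal in `G` and equals `L` by C10.  `T` has exponent 2, so `x² ∈ L` for `x ∈ U`.  For `x ∈ U \ L`: `x² ∈ T`, since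
otherwise `x² = c t` commutes with `x`, so `c` commutes with `x`, `x ∈ C_U(L) = L`.  Suppose `U ≠ L`.  B2 for
`(L, U)`: `x ∈ U \ L` with the coset `x L` fixed by `P`.  `H = T ∪ x T` is a subgroup of order `2 ^ k`, `H ≤ U ≤ P`.
`Env.gen` with `D = U` and `S = Nm (L ∪ x L)` (the subgroup `L ⊔ zpowers x`): `N_G(H)` normalizes `H L = L ∪ x L`,
and so does `P`; so `V = L ∪ x L` is normal in `G`.  For `g ∈ G`: `g⁻¹ x g ∈ x L`, `g c g⁻¹ ∈ c T`, and therefore
`τ (x)` commutes with `g`: `g⁻¹ τ(x) g = [g⁻¹ c g, g⁻¹ x g] = [c t, x l] = [c, x]`.  `τ x ≠ 1`, so `{1, τ x}` is a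
normal subgroup of order 2 in `T`, so it is `T`, but `card T ≥ 4`. -/
def S_C11 : Prop := ∀ (k : ℕ) (G : Type) [Group G] [Finite G] (P T L U : Subgroup G), Env k P →
  IsMin T → 3 ≤ k → Nat.card T = 2 ^ (k - 1) → L.Normal → T ≤ L → Nat.card L = 2 ^ k →
  (∀ x ∈ L, ∀ y ∈ L, x * y = y * x) → (∀ x ∈ L, x * x = 1) → U.Normal → IsPGroup 2 U → L ≤ U → U = L

/-- **C12**. (Assume B6, C4, C5, C6, C7, C8, C11.)  `k ≥ 3` is impossible.  Proof: a minimal normal 2-subgroup `T`
exists: `Env.ext` with `N = ⊥` and any `H` of order `2 ^ k` gives a normal `F ≠ ⊥`, not of odd order (`Env.odd`), so a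
2-group; take `T` minimal in it.  C4 and C6: `card T = 2 ^ (k-1)`.  `L` from C7.  B6 with `N = L`: some `H ≰ L` of
order `2 ^ k`; C5 with `N = L` (C8): a chief factor `(L, V)`, `V` a 2-group.  C11 with `U = V`: contradiction. -/
def S_C12 : Prop := ∀ (k : ℕ) (G : Type) [Group G] [Finite G] (P : Subgroup G), Env k P → ¬ 3 ≤ k

/-- **C13**. (Assume B2, B13, C4, C6.)  `k = 2`: every normal 2-subgroup is centralized by all elements of odd order.
Proof: every minimal normal 2-subgroup has order 2 (C4, C6).  Suppose the statement fails; take `M`, `D` from B13.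
`M ≠ ⊥`, otherwise `D` is minimal normal, of order 2, so central in `G`.  B2 gives `d ∈ D \ M`, `d² ∈ M`, coset fixed
by `P`.  `d⁴ = 1`.  If `d² ≠ 1` put `H = zpowers d`, of order 4.  If `d² = 1` let `u ∈ M` have order 2 and
`H = {1, d, u, d u}`, of order 4 (`u` commutes with `d`).  In both cases `H ≤ D ≤ P` and `H M = M ∪ d M`.
`Env.gen` with this `D` and `S = Nm (M ∪ d M)` (`M ⊔ zpowers d`): `N_G(H)` normalizes `H M`, so does `P`; so `M ∪ d M`
is normal in `G`, so it is `D` (chief factor).  Let `e` have odd order; `[d, e] = d⁻¹ e⁻¹ d e ∈ M` (since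
`e⁻¹ d e ∈ D \ M = d M`) commutes with `e`, so `e^{-j} d e^j = d [d, e]^j`, so `[d, e] = 1`.  So `e` commutes with `D`:
contradiction. -/
def S_C13 : Prop := ∀ (G : Type) [Group G] [Finite G] (P : Subgroup G), Env 2 P →
  ∀ D : Subgroup G, D.Normal → IsPGroup 2 D → ∀ (e : G) (m : ℕ), Odd m → e ^ m = 1 → ∀ d ∈ D, d * e = e * d

/-- **C14**. (Assume B5, B8, B10, B11, C13; `S_A5` of `Q2.TN` = existence of `O_2(G)` is proved in
`Pool.Agent.Q2.TN.Main` as `Q2.TN.Fin.a5`.)  `k = 2` is impossible.  Proof: `G` is not 2-nilpotent, so by B11 there are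
a 2-subgroup `X` and `y` of odd order normalizing but not centralizing it; by B10 there is `x ∈ X`, `x⁴ = 1`, not
commuting with `y`.  Conjugating (Sylow) we may assume `x ∈ P`.  Let `H ≤ P` have order 4 and contain `x` (B5:
`card (zpowers x)` is 2 or 4).  Let `U` be the greatest normal 2-subgroup.  If `H ≤ U` then `x ∈ U` commutes with
`y` by C13: contradiction.  So `H ≰ U`, and `Env.ext` with `N = U` gives a normal `F > U`, `F / U` a 2-group or of odd
order.  A 2-group: `F` is a normal 2-subgroup, `F ≤ U`, contradiction.  Odd: `F` is generated by `U` and elements of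
odd order (Schur-Zassenhaus complement `F₀` of `U` in `F`), which centralize `U` by C13.  `C = F ⊓ centralizer U` is
normal in `G` and contains `F₀`; `Z = C ⊓ U` is central in `C`, `Z.relIndex C` is odd; B8 for `(Z, C)`: `C = Z O` with
`O` normal in `G`, of odd order, so `O = ⊥` and `C = Z` is a 2-group, so `F₀ = ⊥`, `F = U`: contradiction. -/
def S_C14 : Prop := ∀ (G : Type) [Group G] [Finite G] (P : Subgroup G), ¬ Env 2 P

/-- **MAIN** (assembled by helper2). -/
def S_MAIN : Prop := ∀ (k : ℕ) (G : Type) [Group G] [Finite G] (P : Subgroup G), 2 ≤ k → IsSyl 2 P →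
  2 ^ k < Nat.card P → Hyp k P → IsPNil 2 G

end Q2.PM
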