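import Mathlib
import Pool.Agent.Q2.PM.Stm
import Pool.Agent.Q2.TN.Main

namespace Q2.PM.Asm

open Subgroup Q2.PM
open Q2.TN (IsPNil IsSyl IsChief Nm)

theorem main (a6 : S_A6) (a7 : S_A7) (a8 : S_A8) (a9 : S_A9) (c12 : S_C12) (c14 : S_C14) : S_MAIN := by
  have key : ∀ n : ℕ, ∀ (k : ℕ) (G : Type) [Group G] [Finite G] (P : Subgroup G), Nat.card G = n →
      2 ≤ k → IsSyl 2 P → 2 ^ k < Nat.card P → Hyp k P → IsPNil 2 G := by
    intro n
    induction n using Nat.strong_induction_on with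
    | _ n ih =>
    intro k G _ _ P hn hk hP hc hH
    by_contra hG
    have hEnv : Env k P := by
      refine ⟨hk, hP, hc, hG, ?_, ?_, ?_, ?_⟩
      · intro N hN hodd
        by_contra hne
        have hlt : Nat.card (G ⧸ N) < n := hn ▸ Q2.TN.Asm.card_quot_lt N hne
        obtain ⟨h1, h2⟩ := a8 k G P N hP hodd hH
        have h3 : IsPNil 2 (G ⧸ N) := ih _ hlt k (G ⧸ N) (P.map (QuotientGroup.mk' N)) rfl hk
          ((Q2.TN.Fin.a6 2 Nat.prime_two G P hP).2.1 _ _ (QuotientGroup.mk'_surjective N))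
          (h2 ▸ hc) h1
        exact hG (Q2.TN.Fin.a3 2 Nat.prime_two G N ((Nat.coprime_two_right).2 hodd) h3)
      · intro H D S hHP hHc hD hDp hPS hS
        exact a6 G H D P S (hP.1.to_le hHP) (hH H hHP hHc) hD hDp hP hPS hS
      · intro H N hHP hHc hN hle
        exact a7 G H N (hP.1.to_le hHP) (hH H hHP hHc) hN hle
      · intro T hTn hT m hm hmk
        have hlt : Nat.card (G ⧸ T) < n := hn ▸ Q2.TN.Asm.card_quot_lt T hT
        obtain ⟨h1, h2⟩ := a9 k m G P T hP hm (by omega) hH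
        refine ih _ hlt (k - m) (G ⧸ T) (P.map (QuotientGroup.mk' T)) rfl (by omega)
          ((Q2.TN.Fin.a6 2 Nat.prime_two G P hP).2.1 _ _ (QuotientGroup.mk'_surjective T)) ?_ h1
        have h3 : 2 ^ k = 2 ^ (k - m) * 2 ^ m := by
          rw [← pow_add]
          congr 1
          omega
        rw [h3, ← h2] at hc
        exact lt_of_mul_lt_mul_right hc (Nat.zero_le _)
    have h3 := c12 k G P hEnv
    have h4 : k = 2 := by omega
    subst h4
    exact c14 G P hEnv
  intro k G _ _ P hk hP hc hH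
  exact key _ k G P rfl hk hP hc hH

end Q2.PM.Asm
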