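import Mathlib
import Pool.Agent.Q2.PM.Asm
import Pool.Agent.Q103.PM_A1
import Pool.Agent.Q129.PM_A2
import Pool.Agent.Q184.PM_A3
import Pool.Agent.Q162.PM_A4
import Pool.Agent.Q278.PM.A5
import Pool.Agent.Q123.PM_A6
import Pool.Agent.Q147.PM_A8
import Pool.Agent.Q147.PM_A9
import Pool.Agent.Q265.PM_B1
import Pool.Agent.Q214.PM.B23
import Pool.Agent.Q222.PM_B4
import Pool.Agent.Q222.PM_B5
import Pool.Agent.Q109.PM_B6
import Pool.Agent.Q182.PM_B7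
import Pool.Agent.Q252.PM_B8
import Pool.Agent.Q182.PM_B9
import Pool.Agent.Q77.PM_B10
import Pool.Agent.Q77.PM_B11
import Pool.Agent.Q87.PM_B12
import Pool.Agent.Q295.PM_B13
import Pool.Agent.Q222.PM_C1
import Pool.Agent.Q153.PM_C2
import Pool.Agent.Q299.PM_C3
import Pool.Agent.Q299.PM_C4
import Pool.Agent.Q204.PM.C5
import Pool.Agent.Q192.PM_C6
import Pool.Agent.Q294.PM_C7
import Pool.Agent.Q194.PM_C8
import Pool.Agent.Q186.PM.C9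
import Pool.Agent.Q294.PM_C10
import Pool.Agent.Q79.PM_C11
import Pool.Agent.Q18.PM_C12
import Pool.Agent.Q295.PM_C13
import Pool.Agent.Q143.PM_C14

/-! Project PM: all lemmas of the team put together. -/

namespace Q2.PM.Fin

open Q2.PM Subgroup

theorem a3 : S_A3 := Q184.PM_A3.a3 Q103.PM_A1.a1 Q129.PM_A2.a2
theorem a4 : S_A4 := Q162.PM_A4.a4
theorem a5 : S_A5 := Pool.Agent.Q278.PM.a5
theorem a6 : S_A6 := Q123.PM_A6.a6
theorem a7 : S_A7 := Pool.Agent.Q278.PM.a7 a3 a4 a5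
theorem a8 : S_A8 := Q147.PM_A8.a8 a5
theorem a9 : S_A9 := Q147.PM_A9.a9 a5
theorem b1 : S_B1 := Q265.PM_B1.b1
theorem b2 : S_B2 := Pool.Agent.Q214.PM.b2
theorem b3 : S_B3 := Pool.Agent.Q214.PM.b3
theorem b4 : S_B4 := Q222.PM_B4.b4 b3
theorem b5 : S_B5 := Q222.PM_B5.b5
theorem b6 : S_B6 := Q109.PM_B6.b6 b5
theorem b7 : S_B7 := Q182.PM_B7.b7
theorem b8 : S_B8 := Q252.PM_B8.b8
theorem b9 : S_B9 := Q182.PM_B9.b9
theorem b10 : S_B10 := Q77.PM_B10.b10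
theorem b11 : S_B11 := Q77.PM_B11.b11
theorem b12 : S_B12 := Q87.PM_B12.b12 b1 b7 b8
theorem b13 : S_B13 := Q295.PM_B13.b13 b1
theorem c1 : S_C1 := Q222.PM_C1.c1
theorem c2 : S_C2 := Q153.PM_C2.c2 b3
theorem c3 : S_C3 := Q299.PM_C3.c3 b4 b5 b12 c1 c2
theorem c4 : S_C4 := Q299.PM_C4.c4 c2 c3
theorem c5 : S_C5 := Pool.Agent.Q204.PM.c5
theorem c6 : S_C6 := Q192.PM_C6.c6 b1 b4 b6 b9 c1 c3 c5
theorem c7 : S_C7 := Q294.PM_C7.c7 b1 b2 b5 c3 c5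
theorem c8 : S_C8 := Q194.PM_C8.c8 b8 c4
theorem c9 : S_C9 := Pool.Agent.Q186.PM.c9 c1
theorem c10 : S_C10 := Q294.PM_C10.c10 b1 b4 b9 c9
theorem c11 : S_C11 := Q79.PM_C11.c11 b1 b2 c10
theorem c12 : S_C12 := Q18.PM_C12.c12 b6 c4 c5 c6 c7 c8 c11
theorem c13 : S_C13 := Q295.PM_C13.c13 b2 b5 b13 c4 c6
theorem c14 : S_C14 := Q143.PM_C14.c14 b5 b8 b10 b11 c13

theorem main : S_MAIN := Q2.PM.Asm.main a6 a7 a8 a9 c12 c14

end Q2.PM.Fin
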